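import Pool.Agent.X187.DK.Final

/-!
# MP_0b7119_mp, Q1 for `p = d = 1`: the lowest gap eigenvalue of the Dirac operator is not a
concave function of the potential

In dimension one `N = 2` and the free Dirac operator is `D_m = α (-i d/dx) + m β`, realised here
with `α = σ₂`, `β = σ₃`.  A potential in the ball `U_1` is a nonnegative integrable function `V`
with `∫ V < π`; here `π = α_⋆(1)`.  We show that the lowest eigenvalue `λ_D(V)` in the gap
`(-m, m)` is not concave on `U_1`.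
-/

open MeasureTheory Set

namespace Pool.Agent.Results.MP_0b7119_mp.NotConcave

/-- The Pauli matrix `σ₂` (the Dirac matrix `α`). -/
def pauli2 : Matrix (Fin 2) (Fin 2) ℂ := !![0, -Complex.I; Complex.I, 0]

/-- The Pauli matrix `σ₃` (the Dirac matrix `β`). -/
def pauli3 : Matrix (Fin 2) (Fin 2) ℂ := !![1, 0; 0, -1]

/-- `Ψ : ℝ → ℂ²` is an eigenfunction of `D_m - V` with eigenvalue `lam`: `Ψ` is square integrable,
not identically zero and locally absolutely continuous (it is the primitive of a locally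
integrable function `Ψ'`), and `-i σ₂ Ψ' + m σ₃ Ψ - V Ψ = lam Ψ` almost everywhere. -/
structure IsDiracEigenfunction (m : ℝ) (V : ℝ → ℝ) (lam : ℝ) (Ψ : ℝ → Fin 2 → ℂ) : Prop where
  sq : ∀ i, MemLp (fun x => Ψ x i) 2 (volume : Measure ℝ)
  ne : ∃ x, Ψ x ≠ 0
  eq : ∃ Ψ' : ℝ → Fin 2 → ℂ, (∀ i a b, IntervalIntegrable (fun x => Ψ' x i) volume a b) ∧
    (∀ i x, Ψ x i = Ψ 0 i + ∫ t in (0 : ℝ)..x, Ψ' t i) ∧
    ∀ᵐ x : ℝ, (-Complex.I) • pauli2.mulVec (Ψ' x) + (m : ℂ) • pauli3.mulVec (Ψ x)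
      - (V x : ℂ) • Ψ x = (lam : ℂ) • Ψ x

/-- The eigenvalues of `D_m - V` in the gap `(-m, m)`. -/
def gapEigenvalues (m : ℝ) (V : ℝ → ℝ) : Set ℝ :=
  {lam | -m < lam ∧ lam < m ∧ ∃ Ψ, IsDiracEigenfunction m V lam Ψ}

open Classical in
/-- `λ_D(V)`: the lowest eigenvalue (infimum of the eigenvalues) in the gap, and `m` if there is
none. -/
noncomputable def lambdaD (m : ℝ) (V : ℝ → ℝ) : ℝ :=
  if (gapEigenvalues m V).Nonempty then sInf (gapEigenvalues m V) else m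

/-- The ball `U_1`: measurable `V ≥ 0` on the line with `∫ V < π`, where `π = α_⋆(1)`. -/
def ballU1 : Set (ℝ → ℝ) :=
  {V | Measurable V ∧ (∀ x, 0 ≤ V x) ∧ Integrable V ∧ ∫ x, V x < Real.pi}

/-- **Q1 for `p = d = 1`, negative answer.** For every mass `m > 0` the map `V ↦ λ_D(V)` is not
concave on `U_1`. -/
theorem result (m : ℝ) (hm : 0 < m) :
    ∃ V ∈ ballU1, ∃ W ∈ ballU1, ∃ t : ℝ, 0 < t ∧ t < 1 ∧
      lambdaD m (fun x => t * V x + (1 - t) * W x) < t * lambdaD m V + (1 - t) * lambdaD m W := by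
  obtain ⟨V, W, hV, hW, h⟩ := Pool.Agent.X187.DK.main m hm
  have key : ∀ U : ℝ → ℝ, gapEigenvalues m U = Pool.Agent.X187.DK.gapEig m U := by
    intro U
    ext lam
    constructor
    · rintro ⟨h1, h2, Ψ, hΨ⟩
      exact ⟨h1, h2, Ψ, ⟨hΨ.sq, hΨ.ne, hΨ.eq⟩⟩
    · rintro ⟨h1, h2, Ψ, hΨ⟩
      exact ⟨h1, h2, Ψ, ⟨hΨ.sq, hΨ.ne, hΨ.eq⟩⟩
  have key2 : ∀ U : ℝ → ℝ, lambdaD m U = Pool.Agent.X187.DK.lamD m U := by
    intro U
    by_cases hn : (Pool.Agent.X187.DK.gapEig m U).Nonempty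
    · rw [lambdaD, Pool.Agent.X187.DK.lamD, if_pos hn, if_pos (by rw [key]; exact hn), key]
    · rw [lambdaD, Pool.Agent.X187.DK.lamD, if_neg hn, if_neg (by rw [key]; exact hn)]
  refine ⟨V, hV, W, hW, 1 / 2, by norm_num, by norm_num, ?_⟩
  rw [key2, key2, key2]
  exact h

end Pool.Agent.Results.MP_0b7119_mp.NotConcave
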